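import Mathlib

set_option autoImplicit false

namespace Pool.Agent.Results.MP_c605fa_an.MaxLength

open Polynomial Set

/-- Length of the graph of `P` over `[-1,1]`. -/
noncomputable def arcLen (P : ℝ[X]) : ℝ :=
  ∫ x in (-1 : ℝ)..1, √(1 + (P.derivative.eval x) ^ 2)

/-- Monic real polynomials of degree `n` with all zeros real and in `[-1,1]`. -/
def M (n : ℕ) : Set ℝ[X] :=
  {P | ∃ x : Fin n → ℝ, (∀ i, x i ∈ Icc (-1 : ℝ) 1) ∧ P = ∏ i, (X - C (x i))}

theorem cont (P : ℝ[X]) : Continuous fun x : ℝ => √(1 + (P.derivative.eval x) ^ 2) :=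
  (continuous_const.add ((P.derivative.continuous).pow 2)).sqrt

theorem sq_conv (l u v : ℝ) (h0 : 0 ≤ l) (h1 : l ≤ 1) :
    √(1 + (l * u + (1 - l) * v) ^ 2) ≤ l * √(1 + u ^ 2) + (1 - l) * √(1 + v ^ 2) := by
  have hu := Real.sq_sqrt (show 0 ≤ 1 + u ^ 2 by positivity)
  have hv := Real.sq_sqrt (show 0 ≤ 1 + v ^ 2 by positivity)
  have hu0 := Real.sqrt_nonneg (1 + u ^ 2)
  have hv0 := Real.sqrt_nonneg (1 + v ^ 2)
  set a := √(1 + u ^ 2)
  set b := √(1 + v ^ 2)
  have hab : 1 + u * v ≤ a * b := by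
    apply (abs_le_of_sq_le_sq' _ (by positivity)).2
    rw [mul_pow, hu, hv]; nlinarith [sq_nonneg (u - v)]
  have h2 : 0 ≤ 1 - l := by linarith
  apply Real.sqrt_le_iff.2 ⟨by positivity, ?_⟩
  have := mul_le_mul_of_nonneg_left hab (mul_nonneg h0 h2)
  have e : (l * a + (1 - l) * b) ^ 2 = l ^ 2 * (1 + u ^ 2) + (1 - l) ^ 2 * (1 + v ^ 2)
      + 2 * (l * (1 - l) * (a * b)) := by rw [← hu, ← hv]; ring
  rw [e]; nlinarith

theorem conv (Q : ℝ[X]) (t : ℝ) (ht : t ∈ Icc (-1 : ℝ) 1) :
    arcLen ((X - C t) * Q) ≤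
      (1 - t) / 2 * arcLen ((X + 1) * Q) + (1 - (1 - t) / 2) * arcLen ((X - 1) * Q) := by
  unfold arcLen
  rw [← intervalIntegral.integral_const_mul, ← intervalIntegral.integral_const_mul,
    ← intervalIntegral.integral_add (((cont _).intervalIntegrable _ _).const_mul _)
      (((cont _).intervalIntegrable _ _).const_mul _)]
  apply intervalIntegral.integral_mono_on (by norm_num) ((cont _).intervalIntegrable _ _)
    ((((cont _).intervalIntegrable _ _).const_mul _).add
      (((cont _).intervalIntegrable _ _).const_mul _))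
  intro x _
  have := sq_conv ((1 - t) / 2) (((X + 1) * Q).derivative.eval x) (((X - 1) * Q).derivative.eval x)
    (by linarith [ht.2]) (by linarith [ht.1])
  convert this using 4
  simp only [derivative_mul, derivative_sub, derivative_add, derivative_X, derivative_C,
    derivative_one, eval_add, eval_mul, eval_sub, eval_X, eval_C, eval_one, eval_zero]
  ring

theorem sym (n : ℕ) : arcLen ((X - 1) ^ n) = arcLen ((X + 1) ^ n) := by
  unfold arcLen
  have := intervalIntegral.integral_comp_neg (a := (-1 : ℝ)) (b := 1)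
    (fun x : ℝ => √(1 + ((((X + 1) ^ n : ℝ[X])).derivative.eval x) ^ 2))
  rw [neg_neg] at this
  rw [← this]
  congr 1; ext x
  congr 2
  simp only [derivative_pow, derivative_sub, derivative_add, derivative_X, derivative_one,
    eval_add, eval_mul, eval_sub, eval_X, eval_C, eval_one, eval_zero, eval_pow, mul_pow]
  rw [← pow_mul, ← pow_mul, mul_comm (n - 1) 2, pow_mul, pow_mul]
  ring

theorem big (n : ℕ) (hn : 1 ≤ n) : (2 : ℝ) ^ n < arcLen ((X + 1) ^ n) := by
  have h := intervalIntegral.integral_eq_sub_of_hasDerivAt (a := (-1 : ℝ)) (b := 1)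
    (f := fun x => (((X + 1) ^ n : ℝ[X])).eval x)
    (f' := fun x => (((X + 1) ^ n : ℝ[X])).derivative.eval x)
    (fun x _ => Polynomial.hasDerivAt _ x) ((Polynomial.continuous _).intervalIntegrable _ _)
  have h2 : (((X + 1) ^ n : ℝ[X])).eval (1 : ℝ) - (((X + 1) ^ n : ℝ[X])).eval (-1 : ℝ) = 2 ^ n := by
    simp [show n ≠ 0 by omega]; norm_num
  rw [← h2, ← h]
  have lt : ∀ y : ℝ, y < √(1 + y ^ 2) := fun y => Real.lt_sqrt_of_sq_lt (by linarith)
  exact intervalIntegral.integral_lt_integral_of_continuousOn_of_le_of_exists_lt (by norm_num)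
    (Polynomial.continuous _).continuousOn (cont _).continuousOn (fun x _ => (lt _).le)
    ⟨0, by norm_num, lt _⟩

theorem small (a b : ℕ) :
    arcLen ((X - 1) ^ (a + 1) * (X + 1) ^ (b + 1)) ≤ 2 ^ (a + 1 + (b + 1)) := by
  set F : ℝ → ℝ := fun x => (1 - x) ^ (a + 1) * (1 + x) ^ (b + 1) with hF
  set G : ℝ → ℝ := fun x => (1 - x) ^ a * (1 + x) ^ b * (b - a - (a + b + 2) * x) with hG
  have hd : ∀ x, HasDerivAt F (G x) x := by
    intro x
    have h1 := ((hasDerivAt_id x).const_sub 1).pow (a + 1)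
    have h2 := ((hasDerivAt_id x).const_add 1).pow (b + 1)
    refine (h1.mul h2).congr_deriv ?_
    simp only [hG, id, Pi.pow_apply, Nat.add_sub_cancel]
    push_cast; ring
  have hGc : Continuous G := by rw [hG]; fun_prop
  have hab : (0 : ℝ) < a + b + 2 := by positivity
  set c : ℝ := (b - a) / (a + b + 2) with hc
  have ha0 : (0 : ℝ) ≤ a := Nat.cast_nonneg a
  have hb0 : (0 : ℝ) ≤ b := Nat.cast_nonneg b
  have hc1 : -1 ≤ c := by rw [hc, le_div_iff₀ hab]; linarith
  have hc2 : c ≤ 1 := by rw [hc, div_le_iff₀ hab]; linarith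
  have hcc : (a + b + 2) * c = b - a := by rw [hc]; field_simp
  have e1 : ∫ x in (-1 : ℝ)..c, |G x| = F c := by
    rw [intervalIntegral.integral_congr (g := G), intervalIntegral.integral_eq_sub_of_hasDerivAt
      (fun x _ => hd x) (hGc.intervalIntegrable _ _)]
    · simp [hF]
    · intro x hx
      rw [uIcc_of_le hc1] at hx
      apply abs_of_nonneg
      have : 0 ≤ 1 - x := by linarith [hx.2]
      have : 0 ≤ 1 + x := by linarith [hx.1]
      have : 0 ≤ b - a - (a + b + 2) * x := by nlinarith [hx.2]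
      positivity
  have e2 : ∫ x in c..(1 : ℝ), |G x| = F c := by
    rw [intervalIntegral.integral_congr (g := fun x => -G x), intervalIntegral.integral_neg,
      intervalIntegral.integral_eq_sub_of_hasDerivAt
      (fun x _ => hd x) (hGc.intervalIntegrable _ _)]
    · simp [hF]
    · intro x hx
      rw [uIcc_of_le hc2] at hx
      apply abs_of_nonpos
      have : 0 ≤ 1 - x := by linarith [hx.2]
      have : 0 ≤ 1 + x := by linarith [hx.1]
      have : b - a - (a + b + 2) * x ≤ 0 := by nlinarith [hx.1]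
      exact mul_nonpos_of_nonneg_of_nonpos (by positivity) this
  have e3 : ∫ x in (-1 : ℝ)..1, (1 + |G x|) = 2 + 2 * F c := by
    rw [intervalIntegral.integral_add (continuous_const.intervalIntegrable _ _)
      (hGc.abs.intervalIntegrable _ _), ← intervalIntegral.integral_add_adjacent_intervals
      (hGc.abs.intervalIntegrable (-1) c) (hGc.abs.intervalIntegrable c 1), e1, e2]
    simp; ring
  have e4 : F c ≤ 2 ^ (a + b) := by
    have h1 : 0 ≤ 1 - c := by linarith
    have h2 : 0 ≤ 1 + c := by linarith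
    have h3 : (1 - c) ^ a ≤ 2 ^ a := pow_le_pow_left₀ h1 (by linarith) a
    have h4 : (1 + c) ^ b ≤ 2 ^ b := pow_le_pow_left₀ h2 (by linarith) b
    have h5 : (1 - c) * (1 + c) ≤ 1 := by nlinarith [sq_nonneg c]
    calc F c = ((1 - c) ^ a * (1 + c) ^ b) * ((1 - c) * (1 + c)) := by simp only [hF]; ring
      _ ≤ (2 ^ a * 2 ^ b) * 1 := by gcongr
      _ = _ := by ring
  have e5 : arcLen ((X - 1) ^ (a + 1) * (X + 1) ^ (b + 1)) ≤ ∫ x in (-1 : ℝ)..1, (1 + |G x|) := by
    apply intervalIntegral.integral_mono_on (by norm_num) ((cont _).intervalIntegrable _ _)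
      ((show Continuous fun x => 1 + |G x| from continuous_const.add hGc.abs).intervalIntegrable _ _)
    intro x _
    have : ((((X - 1) ^ (a + 1) * (X + 1) ^ (b + 1) : ℝ[X])).derivative.eval x) ^ 2 = (G x) ^ 2 := by
      simp only [derivative_mul, derivative_pow, derivative_sub, derivative_add, derivative_X,
        derivative_one, eval_add, eval_mul, eval_sub, eval_X, eval_C, eval_one, eval_zero,
        eval_pow, hG, Nat.add_sub_cancel]
      have : (1 - x) ^ a = (-1) ^ a * (x - 1) ^ a := by rw [← mul_pow]; congr 1; ring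
      have h2 : ((-1 : ℝ) ^ a) ^ 2 = 1 := by rw [← pow_mul, mul_comm, pow_mul]; simp
      rw [this]; push_cast
      linear_combination
        (-((x - 1) ^ a * (1 + x) ^ b * (b - a - (a + b + 2) * x)) ^ 2) * h2
    rw [this]
    apply Real.sqrt_le_iff.2 ⟨by positivity, ?_⟩
    nlinarith [abs_nonneg (G x), sq_abs (G x)]
  have e6 : (1 : ℝ) ≤ 2 ^ (a + b) := one_le_pow₀ (by norm_num)
  calc _ ≤ _ := e5
    _ ≤ 4 * 2 ^ (a + b) := by rw [e3]; linarith
    _ = _ := by ring

theorem main (n : ℕ) (hn : 2 ≤ n) (l : List ℝ) (hl : ∀ t ∈ l, t ∈ Icc (-1 : ℝ) 1) :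
    ∀ a b : ℕ, a + b + l.length = n →
      arcLen ((l.map fun t => X - C t).prod * ((X - 1) ^ a * (X + 1) ^ b)) ≤
        arcLen ((X + 1) ^ n) ∧
      (¬ (b = 0 ∧ ∀ t ∈ l, t = 1) → ¬ (a = 0 ∧ ∀ t ∈ l, t = -1) →
      arcLen ((l.map fun t => X - C t).prod * ((X - 1) ^ a * (X + 1) ^ b)) <
        arcLen ((X + 1) ^ n)) := by
  induction l with
  | nil =>
    intro a b hab
    simp only [List.length_nil, add_zero] at hab
    simp only [List.map_nil, List.prod_nil, one_mul]
    have key : b ≠ 0 → a ≠ 0 → arcLen ((X - 1) ^ a * (X + 1) ^ b) < arcLen ((X + 1) ^ n) := by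
      intro hb ha
      obtain ⟨a, rfl⟩ := Nat.exists_eq_succ_of_ne_zero ha
      obtain ⟨b, rfl⟩ := Nat.exists_eq_succ_of_ne_zero hb
      refine (small a b).trans_lt ?_
      rw [← hab]; exact big _ (by omega)
    refine ⟨?_, fun h1 h2 => key (by simpa using h1) (by simpa using h2)⟩
    by_cases hb : b = 0
    · subst hb; rw [add_zero] at hab; subst hab; simp [sym]
    by_cases ha : a = 0
    · subst ha; rw [zero_add] at hab; subst hab; simp
    exact (key hb ha).le
  | cons t l ih =>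
    intro a b hab
    have ht := hl t (by simp)
    have ih' := ih (fun s hs => hl s (by simp [hs]))
    simp only [List.length_cons] at hab
    obtain ⟨p1, p2⟩ := ih' a (b + 1) (by omega)
    obtain ⟨q1, q2⟩ := ih' (a + 1) b (by omega)
    have hc := conv ((l.map fun t => X - C t).prod * ((X - 1) ^ a * (X + 1) ^ b)) t ht
    rw [show (X + 1) * ((l.map fun t => X - C t).prod * ((X - 1) ^ a * (X + 1) ^ b)) =
      (l.map fun t => X - C t).prod * ((X - 1) ^ a * (X + 1 : ℝ[X]) ^ (b + 1)) by ring,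
      show (X - 1) * ((l.map fun t => X - C t).prod * ((X - 1) ^ a * (X + 1) ^ b)) =
      (l.map fun t => X - C t).prod * ((X - 1) ^ (a + 1) * (X + 1 : ℝ[X]) ^ b) by ring] at hc
    simp only [List.map_cons, List.prod_cons, mul_assoc]
    have h0 : 0 ≤ (1 - t) / 2 := by linarith [ht.2]
    have h1 : 0 ≤ 1 - (1 - t) / 2 := by linarith [ht.1]
    have r1 := mul_le_mul_of_nonneg_left p1 h0
    have r2 := mul_le_mul_of_nonneg_left q1 h1
    refine ⟨by linarith, fun c1 c2 => ?_⟩
    have both : ¬ ((a = 0 ∧ ∀ t ∈ l, t = -1) ∧ (b = 0 ∧ ∀ t ∈ l, t = 1)) := by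
      rintro ⟨⟨rfl, x1⟩, rfl, x2⟩
      obtain ⟨s, hs⟩ := List.exists_mem_of_length_pos (l := l) (by omega)
      have := x1 s hs; have := x2 s hs; linarith
    by_cases d1 : a = 0 ∧ ∀ t ∈ l, t = -1
    · have hq := q2 (fun h => both ⟨d1, h⟩) (by simp)
      have : t ≠ -1 := fun h => c2 ⟨d1.1, by simpa [h] using d1.2⟩
      have : 0 < 1 - (1 - t) / 2 := by
        have := lt_of_le_of_ne ht.1 (Ne.symm this); linarith
      have := mul_lt_mul_of_pos_left hq this
      linarith
    have hp := p2 (by simp) d1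
    by_cases d2 : b = 0 ∧ ∀ t ∈ l, t = 1
    · have : t ≠ 1 := fun h => c1 ⟨d2.1, by simpa [h] using d2.2⟩
      have : 0 < (1 - t) / 2 := by
        have := lt_of_le_of_ne ht.2 this; linarith
      have := mul_lt_mul_of_pos_left hp this
      linarith
    have hq := q2 d2 (by simp)
    rcases h0.eq_or_lt with h | h
    · rw [← h] at hc; linarith
    · have := mul_lt_mul_of_pos_left hp h
      linarith

theorem result (n : ℕ) (hn : 2 ≤ n) :
    (X - 1) ^ n ∈ M n ∧ (X + 1) ^ n ∈ M n ∧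
    ∀ P ∈ M n, (∀ Q ∈ M n, arcLen Q ≤ arcLen P) ↔ (P = (X - 1) ^ n ∨ P = (X + 1) ^ n) := by
  have m1 : (X - 1) ^ n ∈ M n := ⟨fun _ => 1, fun _ => by norm_num, by simp⟩
  have m2 : (X + 1) ^ n ∈ M n := ⟨fun _ => -1, fun _ => by norm_num, by simp⟩
  have key : ∀ x : Fin n → ℝ, (∀ i, x i ∈ Icc (-1 : ℝ) 1) →
      arcLen (∏ i, (X - C (x i))) ≤ arcLen ((X + 1) ^ n) ∧
      (¬ (∀ i, x i = 1) → ¬ (∀ i, x i = -1) →
        arcLen (∏ i, (X - C (x i))) < arcLen ((X + 1) ^ n)) := by
    intro x hx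
    have := main n hn (List.ofFn x) (by simpa [List.mem_ofFn] using hx) 0 0 (by simp)
    rw [List.map_ofFn, List.prod_ofFn] at this
    simpa [List.mem_ofFn] using this
  refine ⟨m1, m2, ?_⟩
  rintro P ⟨x, hx, rfl⟩
  constructor
  · intro h
    by_contra hc
    push Not at hc
    refine ((key x hx).2 (fun h1 => hc.1 ?_) (fun h1 => hc.2 ?_)).not_ge (h _ m2)
    · simp [h1]
    · simp [h1]
  · rintro h Q ⟨y, hy, rfl⟩
    rcases h with h | h
    · rw [h, sym]; exact (key y hy).1
    · rw [h]; exact (key y hy).1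

end Pool.Agent.Results.MP_c605fa_an.MaxLength
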